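import Pool.Agent.Q72.SH.Grp

/-!
MP_8d161d_ag, Q1: one proper closed subset for the entire curves whose hyperplane sections are
invariant under affine substitutions, or common to many curves.
-/

set_option autoImplicit false

namespace Pool.Agent.Results.MP_8d161d_ag.InvariantSections

open MvPolynomial Set
open Pool.Agent.W602.GT Pool.Agent.TH143 Pool.Agent.TH143.GT Pool.Agent.W603.BPR
  Pool.Agent.Q72.SH

/-- For all `n` and `d` there is a number `M` such that the following is true for all projective
varieties `X` in `P^n` whose ideals `p` are generated by forms of degrees at most `d`, and which are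
not covered by rational curves or have a nonzero pluricanonical form; this is the case if `X` is of
general type. Here `K` is the function field and `y` the generic point of `X`, and entire curves
are given by homogeneous coordinates. There is a form `G` that does not vanish on `X` such that:

(1) Among any `M + 1` entire curves in `X` that do not lie in `G = 0` and have the same
intersections, with multiplicities, with the coordinate hyperplanes, there are two that differ by an
invertible diagonal matrix of constants.

Let `f` be an entire curve in `X` that does not lie in `G = 0`; it need not be Zariski-dense in `X`.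
(2) There are only finitely many entire curves with the same intersections with the coordinate
hyperplanes and the same Zariski closure as `f`. (3) The affine substitutions `σ`, `z ↦ a z + b`,
`a ≠ 0`, that leave the intersections of `f` with the coordinate hyperplanes invariant give finitely
many curves `f ∘ σ`. (4) If the translation by `b` leaves these intersections invariant then a
multiple `k b`, `k > 0`, is a period of `f`. (5) If the substitution `z ↦ a z + b` leaves them
invariant then `a` is a root of unity. -/
theorem result (n d : ℕ) : ∃ M : ℕ, ∀ (p : Ideal (MvPolynomial (Fin (n + 1)) ℂ))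
    (S : Set (MvPolynomial (Fin (n + 1)) ℂ)), p = Ideal.span S →
    (∀ F ∈ S, ∃ e ≤ d, F.IsHomogeneous e) →
    ∀ (K : Type) [Field K] [Algebra ℂ K] (w : ℕ) (y : Fin (n + 1) → K), FunField p 1 K w y →
    (¬ Covered K ∨ (∃ N, 0 < N ∧ ∃ ω : (Fin w → Derivation ℂ K K) → K,
      Pluricanonical w N ω ∧ ω ≠ 0) ∨ GeneralType ℂ K w) →
    ∃ G : MvPolynomial (Fin (n + 1)) ℂ, IsForm G ∧ G ∉ p ∧
      (∀ g : Fin (M + 1) → ℂ → Fin (n + 1) → ℂ, (∀ s, EntireCurve p 1 (g s)) →
        (∀ s, ∃ z, eval (g s z) G ≠ 0) → (∀ s t, SameSections (g s) (g t)) →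
        ∃ s t, s ≠ t ∧ DiagEq (g s) (g t)) ∧
      ∀ f, EntireCurve p 1 f → (∃ z, eval (f z) G ≠ 0) →
        (∃ M' : ℕ, ∀ g : Fin (M' + 1) → ℂ → Fin (n + 1) → ℂ, (∀ s, EntireCurve p 1 (g s)) →
          (∀ s, SameClosure (g s) f) → (∀ s, SameSections (g s) f) →
          ∃ s t, s ≠ t ∧ SameCurve (g s) (g t)) ∧
        (∃ M' : ℕ, ∀ σ : Fin (M' + 1) → ℂ → ℂ, (∀ s, Aff (σ s)) →
          (∀ s, SameSections (fun z => f (σ s z)) f) →
          ∃ s t, s ≠ t ∧ SameCurve (fun z => f (σ s z)) fun z => f (σ t z)) ∧
        (∀ b, SameSections (fun z => f (z + b)) f →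
          ∃ k : ℕ, 0 < k ∧ SameCurve (fun z => f (z + k * b)) f) ∧
        ∀ a b, a ≠ 0 → SameSections (fun z => f (a * z + b)) f → ∃ k : ℕ, 0 < k ∧ a ^ k = 1 := by
  obtain ⟨M, hM⟩ := diag_or_weighted n d
  refine ⟨M, fun p S hp hS K _ _ w y hy hX => ?_⟩
  subst hp
  obtain ⟨G, hG1, hG2, hG3⟩ := exc_form (Nat.zero_le d) (isHomogeneous_one _ _) rfl hS hy
    (allFlat_of hy hX)
  refine ⟨G, hG1, hG2, fun g hg hgG hs => ?_, fun f hf hfG => ?_⟩
  · rcases hM S hS 1 0 (Nat.zero_le d) (isHomogeneous_one _ _) g hg hs with h1 | ⟨s, h1⟩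
    · exact h1
    · obtain ⟨z, hz⟩ := hgG s
      exact absurd (hG3 _ (hg s) h1 z) hz
  · obtain ⟨M', hM'⟩ : ∃ M', Bd M' (idl f) 1 := by
      rcases bd_or_weighted hS (Nat.zero_le d) (isHomogeneous_one _ _) hf with h1 | h1
      · exact h1
      · obtain ⟨z, hz⟩ := hfG
        exact absurd (hG3 _ hf h1 z) hz
    exact ⟨⟨M', fun g hg hc hs => fam_of_bd hM' g hg hc hs⟩,
      ⟨M', fun σ hσ h => index_of_bd hM' hf σ hσ h⟩, fun b hb => per_of_bd hM' hf hb,
      fun a b ha h => root_of_bd hM' hf ha h⟩

end Pool.Agent.Results.MP_8d161d_ag.InvariantSections
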