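import Pool.Agent.Q64.LC.Uma

/-!
# Entire curves of slow growth in projective varieties which are not uniruled

Let `k` be a countable subfield of `ℂ`, for example the field of algebraic numbers. There is one
function `Ψ`, growing faster than all polynomials, with the following properties for all projective
algebraic sets `X ⊂ ℙ ^ n` over `k`, for all `n`. We consider the nonconstant entire curves in `X`
with entire homogeneous coordinates `f` such that `‖f z‖ ≤ C * Ψ ‖z‖` for large `z`.

1. The set of all points on these curves (in the affine cone over `X`) has the same Hausdorff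
dimension as the union of the rational curves in `X`.

2. Let `X` be irreducible of dimension `w`. If `X` is of general type, or only has a nonzero
pluricanonical form, or is not covered by rational curves, then this dimension is at most `2 w`; the
real dimension of the cone is `2 w + 2`.

3. If moreover `w = 2`, then each of these curves lies in one rational curve.
-/

set_option autoImplicit false

namespace Pool.Agent.Results.MP_8d161d_ag.SlowCurves

open MvPolynomial Pool.Agent.TH143.GT Pool.Agent.W602.GT Pool.Agent.W603.GR Pool.Agent.W603.PV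
open Pool.Agent.Q64.LC
open scoped ENNReal

theorem result (k : Subfield ℂ) [Countable k] :
    ∃ Ψ : ℝ → ℝ, SuperPoly Ψ ∧ ∀ (n : ℕ) (p : Ideal (MvPolynomial (Fin (n + 1)) ℂ)),
      IsHomog p → OverK k p →
      dimH (slowPts p 1 Ψ) = dimH (ratPts p 1) ∧
      (∀ (w : ℕ) (K : Type) [Field K] [Algebra ℂ K] (y : Fin (n + 1) → K), FunField p 1 K w y →
        (¬ Covered K ∨ ∃ N : ℕ, 0 < N ∧ ∃ ω : (Fin w → Derivation ℂ K K) → K,
          Pluricanonical w N ω ∧ ω ≠ 0) →
        dimH (slowPts p 1 Ψ) ≤ ((2 * w : ℕ) : ℝ≥0∞)) ∧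
      (∀ (K : Type) [Field K] [Algebra ℂ K] (y : Fin (n + 1) → K), FunField p 1 K 2 y →
        (¬ Covered K ∨ ∃ N : ℕ, 0 < N ∧ ∃ ω : (Fin 2 → Derivation ℂ K K) → K,
          Pluricanonical 2 N ω ∧ ω ≠ 0) →
        ∀ f, Entire p 1 f → GrowthLe Ψ f → InPoly p 1 f) := by
  obtain ⟨Ψ, h1, h2⟩ := uni_main k
  refine ⟨Ψ, h1, fun n p hp hpk => ?_⟩
  have h1k : CoeffK k (1 : MvPolynomial (Fin (n + 1)) ℂ) := ⟨1, (map_one _).symm⟩
  obtain ⟨h3, -, h4, -⟩ := h2 n p 1 0 hp (isHomogeneous_one _ _) hpk h1k
  have hnn : ∀ (w : ℕ) (K : Type) [Field K] [Algebra ℂ K] (y : Fin (n + 1) → K),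
      (¬ Covered K ∨ ∃ N : ℕ, 0 < N ∧ ∃ ω : (Fin w → Derivation ℂ K K) → K,
        Pluricanonical w N ω ∧ ω ≠ 0) →
      NonNeg (1 : MvPolynomial (Fin (n + 1)) ℂ) 0 w y := by
    rintro w K _ _ y (h | ⟨N, hN, ω, hω, hω0⟩)
    · exact Or.inl h
    · exact Or.inr ⟨N, hN, ω, hω.logSec _, hω0⟩
  refine ⟨h3, fun w K _ _ y hy h => ?_, fun K _ _ y hy h f hf hg => ?_⟩
  · rw [h3]
    exact dimH_ratPts hp hy ((hnn w K y h).exists_form hy (isHomogeneous_one _ _))
  · exact h4 ((hnn 2 K y h).finCl hy (isHomogeneous_one _ _)) f hf hg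

end Pool.Agent.Results.MP_8d161d_ag.SlowCurves
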